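import Mathlib

/-!
# Eulerian-avoidability of orientations of the 4-cycle

We show that not every orientation of `C_4` is Eulerian-avoidable: the alternating
orientation (two sources, two sinks) is not, and already `k = 2` is impossible.

The construction: a set `B` of `d` vertices, and `t + 1` layers, each of them a copy of the
set of words of length `t` over an alphabet with `d` letters, where `t = d * d`.
All arcs go from `B` to layer `0`; a word in layer `i < t` sends arcs to the `d` words of
layer `i + 1` which arise from it by changing the letter number `i` in all possible ways;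
and all arcs go from layer `t` back to `B`.
-/

namespace Pool.Agent.Results.MP_a20f66_co.AlternatingC4

/-- A digraph on the vertex type `V`: no loops and no multiple arcs.
Two opposite arcs between the same pair of vertices are allowed. -/
structure Dig (V : Type) where
  /-- `arc u v` says that there is an arc from `u` to `v`. -/
  arc : V → V → Prop
  /-- There are no loops. -/
  loopless : ∀ v, ¬ arc v v

/-- The out-degree of the vertex `v`. -/
noncomputable def Dig.outDeg {V : Type} (D : Dig V) (v : V) : ℕ := {w | D.arc v w}.ncard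

/-- The in-degree of the vertex `v`. -/
noncomputable def Dig.inDeg {V : Type} (D : Dig V) (v : V) : ℕ := {w | D.arc w v}.ncard

/-- A digraph is Eulerian if every vertex has the same out-degree and in-degree. -/
def Dig.IsEulerian {V : Type} (D : Dig V) : Prop := ∀ v, D.outDeg v = D.inDeg v

/-- `D.Contains F`: some (not necessarily induced or spanning) subdigraph of `D` is isomorphic
to `F`. -/
def Dig.Contains {V W : Type} (D : Dig V) (F : Dig W) : Prop :=
  ∃ φ : W → V, Function.Injective φ ∧ ∀ u v, F.arc u v → D.arc (φ u) (φ v)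

/-- `H`, a digraph whose vertex set is the subset `S` of `V`, is a subdigraph of `D`. -/
def Dig.IsSub {V : Type} (D : Dig V) (S : Set V) (H : Dig S) : Prop :=
  ∀ u v : S, H.arc u v → D.arc u v

/-- `F` is Eulerian-avoidable: there is a function `dF` such that for every `k`, every
(finite, nonempty) Eulerian digraph `D` with minimum out-degree at least `dF k` contains a
nonempty `F`-free subdigraph `H` with minimum out-degree at least `k`. -/
def EulerianAvoidable {W : Type} (F : Dig W) : Prop :=
  ∃ dF : ℕ → ℕ, ∀ (k : ℕ) (V : Type) [Finite V] [Nonempty V] (D : Dig V),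
    D.IsEulerian → (∀ v, dF k ≤ D.outDeg v) →
      ∃ (S : Set V) (H : Dig S), S.Nonempty ∧ D.IsSub S H ∧ ¬ H.Contains F ∧
        ∀ v, k ≤ H.outDeg v

/-- `F` is an orientation of the undirected cycle `C_4`: two vertices are joined by an arc, in
one direction or the other, exactly if they are adjacent in the cycle, and there are no
opposite arcs. -/
def IsOrientationOfC4 (F : Dig (Fin 4)) : Prop :=
  (∀ u v, (F.arc u v ∨ F.arc v u) ↔ (SimpleGraph.cycleGraph 4).Adj u v) ∧
    ∀ u v, ¬ (F.arc u v ∧ F.arc v u)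

/-- The alternating orientation of `C_4`, with the sources `0, 2` and the sinks `1, 3`. -/
def alternatingC4 : Dig (Fin 4) where
  arc u v := (u = 0 ∨ u = 2) ∧ (v = 1 ∨ v = 3)
  loopless := by decide

theorem alternatingC4_isOrientation : IsOrientationOfC4 alternatingC4 := by
  refine ⟨?_, ?_⟩
  · intro u v
    simp only [alternatingC4, SimpleGraph.cycleGraph_adj]
    revert u v
    decide
  · intro u v
    simp only [alternatingC4]
    revert u v
    decide

/-! ### The construction -/

/-- The vertex type. -/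
abbrev Vtx (d t : ℕ) : Type := Fin d ⊕ (Fin (t + 1) × (Fin t → Fin d))

/-- The arcs. -/
def rel (d t : ℕ) : Vtx d t → Vtx d t → Prop
  | .inl _, .inl _ => False
  | .inl _, .inr (j, _) => (j : ℕ) = 0
  | .inr (i, _), .inl _ => (i : ℕ) = t
  | .inr (i, w), .inr (j, w') => (j : ℕ) = i + 1 ∧ ∀ l : Fin t, (l : ℕ) ≠ i → w l = w' l

/-- The digraph. -/
def graph (d t : ℕ) : Dig (Vtx d t) where
  arc := rel d t
  loopless := by
    rintro (b | ⟨i, w⟩)
    · simp [rel]
    · simp [rel]

/-- Cardinality of the range of an injective map from a finite type. -/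
theorem ncard_range {α β : Type} [Fintype α] (f : α → β) (hf : Function.Injective f) :
    (Set.range f).ncard = Fintype.card α := by
  rw [← Set.image_univ, Set.ncard_image_of_injective _ hf, Set.ncard_univ,
    Nat.card_eq_fintype_card]

theorem out_inl (d t : ℕ) (b : Fin d) : (graph d t).outDeg (.inl b) = d ^ t := by
  have h : {w | (graph d t).arc (.inl b) w}
      = Set.range (fun w : Fin t → Fin d => (Sum.inr ((0 : Fin (t + 1)), w) : Vtx d t)) := by
    ext x
    rcases x with b' | ⟨j, w⟩
    · simp [graph, rel]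
    · simp only [graph, rel, Set.mem_ofPred_eq, Set.mem_range, Sum.inr.injEq, Prod.mk.injEq]
      constructor
      · intro hj
        exact ⟨w, Fin.ext (by simp [hj]), rfl⟩
      · rintro ⟨w', h0, -⟩
        simp [← h0]
  rw [Dig.outDeg, h, ncard_range]
  · simp
  · intro w w' hw
    simpa using hw

theorem in_inl (d t : ℕ) (b : Fin d) : (graph d t).inDeg (.inl b) = d ^ t := by
  have h : {w | (graph d t).arc w (.inl b)}
      = Set.range (fun w : Fin t → Fin d => (Sum.inr (Fin.last t, w) : Vtx d t)) := by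
    ext x
    rcases x with b' | ⟨j, w⟩
    · simp [graph, rel]
    · simp only [graph, rel, Set.mem_ofPred_eq, Set.mem_range, Sum.inr.injEq, Prod.mk.injEq]
      constructor
      · intro hj
        exact ⟨w, Fin.ext (by simp [hj]), rfl⟩
      · rintro ⟨w', h0, -⟩
        simp [← h0]
  rw [Dig.inDeg, h, ncard_range]
  · simp
  · intro w w' hw
    simpa using hw

theorem out_last (d t : ℕ) (i : Fin (t + 1)) (hi : (i : ℕ) = t) (w : Fin t → Fin d) :
    (graph d t).outDeg (.inr (i, w)) = d := by
  have h : {x | (graph d t).arc (.inr (i, w)) x}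
      = Set.range (fun b : Fin d => (Sum.inl b : Vtx d t)) := by
    ext x
    rcases x with b' | ⟨j, w'⟩
    · simp [graph, rel, hi]
    · have := j.2
      simp [graph, rel, hi]
      omega
  rw [Dig.outDeg, h, ncard_range _ Sum.inl_injective]
  simp

theorem in_zero (d t : ℕ) (i : Fin (t + 1)) (hi : (i : ℕ) = 0) (w : Fin t → Fin d) :
    (graph d t).inDeg (.inr (i, w)) = d := by
  have h : {x | (graph d t).arc x (.inr (i, w))}
      = Set.range (fun b : Fin d => (Sum.inl b : Vtx d t)) := by
    ext x
    rcases x with b' | ⟨j, w'⟩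
    · simpa [graph, rel] using Fin.ext (by simpa using hi)
    · simp [graph, rel, hi]
  rw [Dig.inDeg, h, ncard_range _ Sum.inl_injective]
  simp

theorem out_mid (d t : ℕ) (i : Fin (t + 1)) (hi : (i : ℕ) < t) (w : Fin t → Fin d) :
    (graph d t).outDeg (.inr (i, w)) = d := by
  have h : {x | (graph d t).arc (.inr (i, w)) x}
      = Set.range (fun c : Fin d => (Sum.inr ((⟨i + 1, by omega⟩ : Fin (t + 1)),
          Function.update w ⟨i, hi⟩ c) : Vtx d t)) := by
    ext x
    rcases x with b' | ⟨j, w'⟩
    · simp [graph, rel]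
      omega
    · simp only [graph, rel, Set.mem_ofPred_eq, Set.mem_range, Sum.inr.injEq, Prod.mk.injEq]
      constructor
      · rintro ⟨hj, hw⟩
        refine ⟨w' ⟨i, hi⟩, Fin.ext (by simp [hj]), ?_⟩
        funext l
        by_cases hl : l = ⟨i, hi⟩
        · subst hl; simp
        · rw [Function.update_of_ne hl]
          exact hw l (fun h' => hl (Fin.ext h'))
      · rintro ⟨c, h0, h1⟩
        refine ⟨by simp [← h0], ?_⟩
        intro l hl
        rw [← h1, Function.update_of_ne]
        intro h'
        exact hl (by rw [h'])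
  rw [Dig.outDeg, h, ncard_range]
  · simp
  · intro c c' hc
    simp only [Sum.inr.injEq, Prod.mk.injEq, true_and] at hc
    have := congrFun hc ⟨i, hi⟩
    simpa using this

theorem in_succ (d t : ℕ) (i : Fin (t + 1)) (hi : 0 < (i : ℕ)) (w : Fin t → Fin d) :
    (graph d t).inDeg (.inr (i, w)) = d := by
  have hi2 := i.2
  have hit : (i : ℕ) - 1 < t := by omega
  have h : {x | (graph d t).arc x (.inr (i, w))}
      = Set.range (fun c : Fin d => (Sum.inr ((⟨i - 1, by omega⟩ : Fin (t + 1)),
          Function.update w ⟨i - 1, hit⟩ c) : Vtx d t)) := by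
    ext x
    rcases x with b' | ⟨j, w'⟩
    · simp only [graph, rel, Set.mem_ofPred_eq, Set.mem_range, reduceCtorEq, exists_false,
        iff_false]
      omega
    · simp only [graph, rel, Set.mem_ofPred_eq, Set.mem_range, Sum.inr.injEq, Prod.mk.injEq]
      constructor
      · rintro ⟨hj, hw⟩
        refine ⟨w' ⟨i - 1, hit⟩, Fin.ext (by simp [hj]), ?_⟩
        funext l
        by_cases hl : l = ⟨i - 1, hit⟩
        · subst hl; simp
        · rw [Function.update_of_ne hl]
          refine (hw l (fun h' => hl (Fin.ext ?_))).symm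
          simp only
          omega
      · rintro ⟨c, h0, h1⟩
        have h0' : (i : ℕ) - 1 = j := congrArg Fin.val h0
        refine ⟨by omega, ?_⟩
        intro l hl
        rw [← h1, Function.update_of_ne]
        intro h'
        exact hl (by rw [h']; exact h0')
  rw [Dig.inDeg, h, ncard_range]
  · simp
  · intro c c' hc
    simp only [Sum.inr.injEq, Prod.mk.injEq, true_and] at hc
    have := congrFun hc ⟨i - 1, hit⟩
    simpa using this

theorem graph_eulerian (d t : ℕ) : (graph d t).IsEulerian := by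
  rintro (b | ⟨i, w⟩)
  · rw [out_inl, in_inl]
  · have hout : (graph d t).outDeg (.inr (i, w)) = d := by
      rcases Nat.lt_or_ge (i : ℕ) t with h | h
      · exact out_mid d t i h w
      · exact out_last d t i (by omega) w
    have hin : (graph d t).inDeg (.inr (i, w)) = d := by
      rcases Nat.eq_zero_or_pos (i : ℕ) with h | h
      · exact in_zero d t i h w
      · exact in_succ d t i h w
    rw [hout, hin]

theorem graph_outDeg (d t : ℕ) (ht : 1 ≤ t) (v : Vtx d t) : d ≤ (graph d t).outDeg v := by
  rcases v with b | ⟨i, w⟩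
  · rw [out_inl]
    exact Nat.le_self_pow (by omega) d
  · rcases Nat.lt_or_ge (i : ℕ) t with h | h
    · rw [out_mid d t i h w]
    · rw [out_last d t i (by omega) w]

/-- A vertex of out-degree at least two has two different out-neighbours. -/
theorem exists_pair {V : Type} {S : Set V} {H : Dig S} {v : S} (h : 2 ≤ H.outDeg v) :
    ∃ x y : S, H.arc v x ∧ H.arc v y ∧ x ≠ y := by
  have h1 : 1 < {w | H.arc v w}.ncard := h
  have hfin : {w | H.arc v w}.Finite := Set.finite_of_ncard_ne_zero (by omega)
  obtain ⟨x, y, hx, hy, hxy⟩ := (Set.one_lt_ncard_iff hfin).1 h1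
  exact ⟨x, y, hx, hy, hxy⟩

/-- The growth lemma: if `H` has minimum out-degree at least two, then from a word `w` in
layer `t - m` one can reach at least `2 ^ m` words in layer `t`. -/
theorem growth {d t : ℕ} {S : Set (Vtx d t)} {H : Dig S} (hsub : (graph d t).IsSub S H)
    (hdeg : ∀ v, 2 ≤ H.outDeg v) (m : ℕ) :
    ∀ (i : Fin (t + 1)), (i : ℕ) + m = t → ∀ w : Fin t → Fin d, Sum.inr (i, w) ∈ S →
      2 ^ m ≤ {w' : Fin t → Fin d | Sum.inr (Fin.last t, w') ∈ S ∧
        ∀ l : Fin t, (l : ℕ) < i → w' l = w l}.ncard := by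
  induction m with
  | zero =>
    intro i hi w hw
    have hil : i = Fin.last t := Fin.ext (by simpa using hi)
    subst hil
    rw [pow_zero, Nat.one_le_iff_ne_zero, ← Nat.pos_iff_ne_zero,
      Set.ncard_pos (Set.toFinite _)]
    exact ⟨w, hw, fun _ _ => rfl⟩
  | succ m ih =>
    intro i hi w hw
    obtain ⟨x, y, hx, hy, hxy⟩ := exists_pair (hdeg ⟨_, hw⟩)
    have hx' := hsub _ _ hx
    have hy' := hsub _ _ hy
    have hit : (i : ℕ) < t := by omega
    rcases x with ⟨bx | ⟨jx, wx⟩, hxS⟩
    · simp only [graph, rel] at hx'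
      omega
    rcases y with ⟨by' | ⟨jy, wy⟩, hyS⟩
    · simp only [graph, rel] at hy'
      omega
    obtain ⟨hjx, hwx⟩ : (jx : ℕ) = i + 1 ∧ ∀ l : Fin t, (l : ℕ) ≠ i → w l = wx l := hx'
    obtain ⟨hjy, hwy⟩ : (jy : ℕ) = i + 1 ∧ ∀ l : Fin t, (l : ℕ) ≠ i → w l = wy l := hy'
    have hjj : jx = jy := Fin.ext (by omega)
    subst hjj
    have hne : wx ⟨i, hit⟩ ≠ wy ⟨i, hit⟩ := by
      intro hcon
      apply hxy
      have : wx = wy := by
        funext l
        by_cases hl : (l : ℕ) = i
        · have : l = ⟨i, hit⟩ := Fin.ext hl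
          rw [this]; exact hcon
        · rw [← hwx l hl, ← hwy l hl]
      subst this
      rfl
    have h1 := ih jx (by omega) wx hxS
    have h2 := ih jx (by omega) wy hyS
    have hdisj : Disjoint
        {w' : Fin t → Fin d | Sum.inr (Fin.last t, w') ∈ S ∧
          ∀ l : Fin t, (l : ℕ) < jx → w' l = wx l}
        {w' : Fin t → Fin d | Sum.inr (Fin.last t, w') ∈ S ∧
          ∀ l : Fin t, (l : ℕ) < jx → w' l = wy l} := by
      rw [Set.disjoint_left]
      rintro w' ⟨-, ha⟩ ⟨-, hb⟩
      apply hne
      rw [← ha ⟨i, hit⟩ (by simp only; omega), ← hb ⟨i, hit⟩ (by simp only; omega)]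
    have hle := Set.ncard_union_eq hdisj (Set.toFinite _) (Set.toFinite _)
    have hss : {w' : Fin t → Fin d | Sum.inr (Fin.last t, w') ∈ S ∧
          ∀ l : Fin t, (l : ℕ) < jx → w' l = wx l} ∪
        {w' : Fin t → Fin d | Sum.inr (Fin.last t, w') ∈ S ∧
          ∀ l : Fin t, (l : ℕ) < jx → w' l = wy l} ⊆
        {w' : Fin t → Fin d | Sum.inr (Fin.last t, w') ∈ S ∧
          ∀ l : Fin t, (l : ℕ) < i → w' l = w l} := by
      rintro w' (⟨hS, ha⟩ | ⟨hS, ha⟩)
      · refine ⟨hS, fun l hl => ?_⟩
        rw [ha l (by omega), hwx l (by omega)]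
      · refine ⟨hS, fun l hl => ?_⟩
        rw [ha l (by omega), hwy l (by omega)]
    have := Set.ncard_le_ncard hss (Set.toFinite _)
    rw [pow_succ]
    omega

/-- Every nonempty subdigraph with minimum out-degree at least two contains a word in
layer `0`. -/
theorem exists_layer_zero {d t : ℕ} {S : Set (Vtx d t)} {H : Dig S}
    (hsub : (graph d t).IsSub S H) (hdeg : ∀ v, 2 ≤ H.outDeg v) (hS : S.Nonempty) :
    ∃ w : Fin t → Fin d, Sum.inr ((0 : Fin (t + 1)), w) ∈ S := by
  have hB : ∀ b : Fin d, Sum.inl b ∈ S → ∃ w : Fin t → Fin d, Sum.inr ((0 : Fin (t + 1)), w) ∈ S := by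
    intro b hb
    obtain ⟨x, y, hx, hy, hxy⟩ := exists_pair (hdeg ⟨_, hb⟩)
    have hx' := hsub _ _ hx
    rcases x with ⟨bx | ⟨jx, wx⟩, hxS⟩
    · simp only [graph, rel] at hx'
    · simp only [graph, rel] at hx'
      have : jx = 0 := Fin.ext (by simpa using hx')
      subst this
      exact ⟨wx, hxS⟩
  obtain ⟨v, hv⟩ := hS
  rcases v with b | ⟨i, w⟩
  · exact hB b hv
  · have hi := i.2
    have h1 := growth hsub hdeg (t - i) i (by omega) w hv
    have hpos : 0 < 2 ^ (t - (i : ℕ)) := by positivity
    obtain ⟨w', hw', -⟩ := (Set.ncard_pos (Set.toFinite _)).1 (lt_of_lt_of_le hpos h1)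
    obtain ⟨x, y, hx, hy, hxy⟩ := exists_pair (hdeg ⟨_, hw'⟩)
    have hx' := hsub _ _ hx
    rcases x with ⟨bx | ⟨jx, wx⟩, hxS⟩
    · exact hB bx hxS
    · simp only [graph, rel, Fin.val_last] at hx'
      have := jx.2
      omega

/-- The main point: if `d * d < 2 ^ t`, then every nonempty subdigraph of `graph d t` with
minimum out-degree at least two contains the alternating orientation of `C_4`. -/
theorem contains_alternating {d t : ℕ} (hdt : d * d < 2 ^ t) {S : Set (Vtx d t)} {H : Dig S}
    (hsub : (graph d t).IsSub S H) (hdeg : ∀ v, 2 ≤ H.outDeg v) (hS : S.Nonempty) :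
    H.Contains alternatingC4 := by
  obtain ⟨w, hw⟩ := exists_layer_zero hsub hdeg hS
  have hbig := growth hsub hdeg t 0 (by simp) w hw
  have hsubset : {w' : Fin t → Fin d | Sum.inr (Fin.last t, w') ∈ S ∧
        ∀ l : Fin t, (l : ℕ) < ((0 : Fin (t + 1)) : ℕ) → w' l = w l} ⊆
      {w' : Fin t → Fin d | Sum.inr (Fin.last t, w') ∈ S} := fun w' h => h.1
  have hbig2 := hbig.trans (Set.ncard_le_ncard hsubset (Set.toFinite _))
  -- every word of `H` in layer `t` has two out-neighbours in `B`
  have hpair : ∀ w' : Fin t → Fin d, ∀ hw' : Sum.inr (Fin.last t, w') ∈ S,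
      ∃ p : Fin d × Fin d, p.1 ≠ p.2 ∧ ∃ (h1 : Sum.inl p.1 ∈ S) (h2 : Sum.inl p.2 ∈ S),
        H.arc ⟨_, hw'⟩ ⟨_, h1⟩ ∧ H.arc ⟨_, hw'⟩ ⟨_, h2⟩ := by
    intro w' hw'
    obtain ⟨x, y, hx, hy, hxy⟩ := exists_pair (hdeg ⟨_, hw'⟩)
    have hx' := hsub _ _ hx
    have hy' := hsub _ _ hy
    rcases x with ⟨bx | ⟨jx, wx⟩, hxS⟩
    · rcases y with ⟨b2 | ⟨jy, wy⟩, hyS⟩
      · refine ⟨(bx, b2), ?_, hxS, hyS, hx, hy⟩
        rintro h
        simp only at h
        subst h
        exact hxy rfl
      · simp only [graph, rel, Fin.val_last] at hy'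
        have := jy.2
        omega
    · simp only [graph, rel, Fin.val_last] at hx'
      have := jx.2
      omega
  classical
  choose g hg using hpair
  let T : Type := {w' : Fin t → Fin d // (Sum.inr (Fin.last t, w') : Vtx d t) ∈ S}
  let f : T → Fin d × Fin d := fun a => g a.1 a.2
  have hcard : Fintype.card (Fin d × Fin d) < Fintype.card T := by
    have h1 : Fintype.card T = {w' : Fin t → Fin d | Sum.inr (Fin.last t, w') ∈ S}.ncard := by
      rw [← Nat.card_eq_fintype_card]
      rfl
    rw [h1, Fintype.card_prod, Fintype.card_fin]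
    exact lt_of_lt_of_le hdt hbig2
  obtain ⟨a, a', haa, hff⟩ := Fintype.exists_ne_map_eq_of_card_lt f hcard
  obtain ⟨hne, h1, h2, h3, h4⟩ := hg a.1 a.2
  have hff' : g a'.1 a'.2 = g a.1 a.2 := hff.symm
  have key := (hg a'.1 a'.2).2
  rw [hff'] at key
  obtain ⟨h1', h2', h3', h4'⟩ := key
  -- the embedding: `0 ↦ a`, `2 ↦ a'`, `1 ↦ first`, `3 ↦ second`
  let φ : Fin 4 → S := ![⟨_, a.2⟩, ⟨_, h1⟩, ⟨_, a'.2⟩, ⟨_, h2⟩]
  have haa' : a.1 ≠ a'.1 := fun h => haa (Subtype.ext h)
  refine ⟨φ, ?_, ?_⟩
  · intro x y hxy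
    fin_cases x <;> fin_cases y <;> simp [φ, haa', haa'.symm, hne, hne.symm] at hxy ⊢
  · rintro u v ⟨hu, hv⟩
    rcases hu with rfl | rfl <;> rcases hv with rfl | rfl
    · exact h3
    · exact h4
    · exact h3'
    · exact h4'

/-- The explicit form: for every `d ≥ 1` there is an Eulerian digraph with all degrees at least
`d`, each of whose nonempty subdigraphs with minimum out-degree at least `2` contains the
alternating orientation of `C_4`. -/
theorem alternating_unavoidable (d : ℕ) (hd : 1 ≤ d) :
    ∃ t : ℕ, (graph d t).IsEulerian ∧ (∀ v, d ≤ (graph d t).outDeg v) ∧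
      ∀ (S : Set (Vtx d t)) (H : Dig S), S.Nonempty → (graph d t).IsSub S H →
        (∀ v, 2 ≤ H.outDeg v) → H.Contains alternatingC4 := by
  refine ⟨d * d, graph_eulerian _ _, graph_outDeg _ _ (by nlinarith), ?_⟩
  intro S H hS hsub hdeg
  exact contains_alternating Nat.lt_two_pow_self hsub hdeg hS

/-- The alternating orientation of `C_4` is not Eulerian-avoidable. -/
theorem alternating_not_avoidable : ¬ EulerianAvoidable alternatingC4 := by
  rintro ⟨dF, h⟩
  obtain ⟨t, h1, h2, h3⟩ := alternating_unavoidable (dF 2 + 1) (by omega)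
  have : Nonempty (Vtx (dF 2 + 1) t) := ⟨Sum.inl 0⟩
  obtain ⟨S, H, hS, hsub, hfree, hdeg⟩ := h 2 (Vtx (dF 2 + 1) t) (graph (dF 2 + 1) t) h1
    (fun v => (Nat.le_succ _).trans (h2 v))
  exact hfree (h3 S H hS hsub hdeg)

/-- **Answer to Q1 (negative).** It is not true that every orientation of `C_4` is
Eulerian-avoidable. -/
theorem result : ¬ ∀ F : Dig (Fin 4), IsOrientationOfC4 F → EulerianAvoidable F :=
  fun h => alternating_not_avoidable (h alternatingC4 alternatingC4_isOrientation)

end Pool.Agent.Results.MP_a20f66_co.AlternatingC4
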